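import Mathlib

namespace Pool.Agent.Results.MP_a9f5dc_al.QuotientOfGenusTwo

/-- `a` acts on words over `{0, 1}` (`false` is `0`, `true` is `1`) by flipping the first
letter. -/
def aFun : List Bool → List Bool
  | [] => []
  | x :: w => (!x) :: w

mutual
/-- `b(0w) = 0 a(w)`, `b(1w) = 1 c(w)`. -/
def bFun : List Bool → List Bool
  | [] => []
  | false :: w => false :: aFun w
  | true :: w => true :: cFun w
/-- `c(0w) = 0 a(w)`, `c(1w) = 1 d(w)`. -/
def cFun : List Bool → List Bool
  | [] => []
  | false :: w => false :: aFun w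
  | true :: w => true :: dFun w
/-- `d(0w) = 0w`, `d(1w) = 1 b(w)`. -/
def dFun : List Bool → List Bool
  | [] => []
  | false :: w => false :: w
  | true :: w => true :: bFun w
end

theorem a_a (w : List Bool) : aFun (aFun w) = w := by
  cases w <;> simp [aFun]

theorem bcd_invol (w : List Bool) :
    bFun (bFun w) = w ∧ cFun (cFun w) = w ∧ dFun (dFun w) = w := by
  induction w with
  | nil => simp [bFun, cFun, dFun]
  | cons x w ih => cases x <;> simp [bFun, cFun, dFun, a_a, ih]

theorem bc_eq (w : List Bool) :
    bFun (cFun w) = dFun w ∧ cFun (bFun w) = dFun w ∧ cFun (dFun w) = bFun w ∧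
      dFun (cFun w) = bFun w ∧ dFun (bFun w) = cFun w ∧ bFun (dFun w) = cFun w := by
  induction w with
  | nil => simp [bFun, cFun, dFun]
  | cons x w ih => cases x <;> simp [bFun, cFun, dFun, a_a, ih]

/-- The generators as permutations of the set of finite words (they are tree automorphisms). -/
def a : Equiv.Perm (List Bool) := ⟨aFun, aFun, a_a, a_a⟩
/-- The generator `b`. -/
def b : Equiv.Perm (List Bool) :=
  ⟨bFun, bFun, fun w => (bcd_invol w).1, fun w => (bcd_invol w).1⟩
/-- The generator `c`. -/
def c : Equiv.Perm (List Bool) :=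
  ⟨cFun, cFun, fun w => (bcd_invol w).2.1, fun w => (bcd_invol w).2.1⟩
/-- The generator `d`. -/
def d : Equiv.Perm (List Bool) :=
  ⟨dFun, dFun, fun w => (bcd_invol w).2.2, fun w => (bcd_invol w).2.2⟩

/-- The Grigorchuk group `Γ = ⟨a, b, c, d⟩`. -/
def Gamma : Subgroup (Equiv.Perm (List Bool)) := Subgroup.closure {a, b, c, d}

/-- The surface relator `[x_1, y_1] ⋯ [x_g, y_g]`, where `[x, y] = x y x⁻¹ y⁻¹`; the generator
`x_i` is `(i, false)` and `y_i` is `(i, true)`. -/
def surfaceRelator (g : ℕ) : FreeGroup (Fin g × Bool) :=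
  (List.ofFn fun i : Fin g =>
    FreeGroup.of (i, false) * FreeGroup.of (i, true) * (FreeGroup.of (i, false))⁻¹ *
      (FreeGroup.of (i, true))⁻¹).prod

/-- The fundamental group `S_g` of the closed orientable surface of genus `g`. -/
abbrev SurfaceGroup (g : ℕ) : Type := PresentedGroup {surfaceRelator g}

theorem bc_comm : b * c = c * b := by
  ext1 w
  simp only [Equiv.Perm.mul_apply]
  change bFun (cFun w) = cFun (bFun w)
  rw [(bc_eq w).1, (bc_eq w).2.1]

theorem bc_d : b * c = d := by
  ext1 w
  exact (bc_eq w).1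

/-- The images of the four generators of `S_2`. -/
def img : Fin 2 × Bool → Gamma
  | (0, false) => ⟨b, Subgroup.subset_closure (by simp)⟩
  | (0, true) => ⟨c, Subgroup.subset_closure (by simp)⟩
  | (1, false) => ⟨a, Subgroup.subset_closure (by simp)⟩
  | (1, true) => 1

theorem rel_img : ∀ r ∈ ({surfaceRelator 2} : Set (FreeGroup (Fin 2 × Bool))),
    FreeGroup.lift img r = 1 := by
  intro r hr
  rw [Set.mem_singleton_iff] at hr
  subst hr
  have h0 : img (0, false) * img (0, true) = img (0, true) * img (0, false) :=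
    Subtype.ext bc_comm
  have h : img (0, false) * img (0, true) * (img (0, false))⁻¹ * (img (0, true))⁻¹ = 1 := by
    rw [h0]; group
  have h2 : img (1, false) * img (1, true) * (img (1, false))⁻¹ * (img (1, true))⁻¹ = 1 := by
    simp [img]
  simp only [surfaceRelator, List.ofFn_succ, List.ofFn_zero, List.prod_cons, List.prod_nil,
    map_mul, map_inv, FreeGroup.lift_apply_of, mul_one]
  change (img (0, false) * img (0, true) * (img (0, false))⁻¹ * (img (0, true))⁻¹) *
    (img (1, false) * img (1, true) * (img (1, false))⁻¹ * (img (1, true))⁻¹) = 1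
  rw [h, h2, mul_one]

/-- **The Grigorchuk group is a quotient of the genus-2 surface group**: there is a surjective
homomorphism `S_2 → Γ`. -/
theorem result : ∃ φ : SurfaceGroup 2 →* Gamma, Function.Surjective φ := by
  refine ⟨PresentedGroup.toGroup rel_img, ?_⟩
  rw [← MonoidHom.range_eq_top, eq_top_iff]
  rintro ⟨x, hx⟩ -
  have key : ∀ y : Fin 2 × Bool, img y ∈ (PresentedGroup.toGroup rel_img).range := by
    intro y
    exact ⟨PresentedGroup.of y, PresentedGroup.toGroup.of _⟩
  have hle : Gamma ≤ ((PresentedGroup.toGroup rel_img).range).map Gamma.subtype := by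
    refine (Subgroup.closure_le _).2 ?_
    have ha := Subgroup.mem_map_of_mem Gamma.subtype (key (1, false))
    have hb := Subgroup.mem_map_of_mem Gamma.subtype (key (0, false))
    have hc := Subgroup.mem_map_of_mem Gamma.subtype (key (0, true))
    have hd := mul_mem hb hc
    intro z hz
    simp only [Set.mem_insert_iff, Set.mem_singleton_iff] at hz
    rcases hz with rfl | rfl | rfl | rfl
    · exact ha
    · exact hb
    · exact hc
    · have h : Gamma.subtype (img (0, false)) * Gamma.subtype (img (0, true)) = d := bc_d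
      rw [h] at hd; exact hd
  obtain ⟨y, hy, hyx⟩ := hle hx
  have : y = ⟨x, hx⟩ := Subtype.ext hyx
  rw [← this]
  exact hy

end Pool.Agent.Results.MP_a9f5dc_al.QuotientOfGenusTwo
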